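import Pool.Agent.StarGame.Params

namespace Pool.Agent.Results.MP_64b4f3_co.LowerThreshold

open Finset Pool.Agent.StarGame

theorem choose_facts {n : ℕ} (hn : 2 ≤ n) :
    ((n.choose 2 : ℕ) : ℝ) ≤ (n : ℝ) * n / 2 ∧ (n : ℝ) * n / 4 ≤ ((n.choose 2 : ℕ) : ℝ) := by
  have hn2 : (2 : ℝ) ≤ n := by exact_mod_cast hn
  rw [Nat.cast_choose_two]
  constructor <;> nlinarith

/-- Avoider wins for some bias of order `n θ`, `θ = n ^ (1/k)`. -/
theorem avoider_exists {k n : ℕ} {θ : ℝ} (hk : 2 ≤ k) (ht : 48 ≤ θ) (hθ : θ ^ k = n) :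
    ∃ b : ℕ, 1 ≤ b ∧ AvoiderWinsStar n k b ∧ (b : ℝ) ≤ 16 * (n * θ) := by
  have hn0 : θ * θ ≤ n := by
    rw [← hθ]
    calc θ * θ = θ ^ 2 := by ring
      _ ≤ θ ^ k := pow_le_pow_right₀ (by linarith) (by omega)
  have hnθ : 48 * θ ≤ n := by nlinarith
  have hnr : 48 * 48 ≤ (n : ℝ) := by linarith
  have hnpos : (0 : ℝ) < n := by linarith
  have hθpos : (0 : ℝ) < θ := by linarith
  have hn2 : 2 ≤ n := by
    have : (2 : ℝ) ≤ n := by linarith
    exact_mod_cast this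
  obtain ⟨hN1, hN2⟩ := choose_facts hn2
  set N := n.choose 2 with hN
  set P : ℝ := n * θ with hP
  have hPpos : 0 < P := by positivity
  have hPn : 48 * (n : ℝ) ≤ P := by rw [hP]; nlinarith
  have hNP : 12 * P ≤ N := by
    refine le_trans ?_ hN2
    rw [hP]
    nlinarith
  -- q
  set q := ⌊(N : ℝ) / (8 * P)⌋₊ with hq
  have hq1 : (q : ℝ) ≤ N / (8 * P) := Nat.floor_le (by positivity)
  have hq2 : (N : ℝ) / (8 * P) < q + 1 := Nat.lt_floor_add_one _
  rw [le_div_iff₀ (by positivity)] at hq1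
  rw [div_lt_iff₀ (by positivity)] at hq2
  set D := 2 * N / (2 * q + 1) with hD
  have hdiv : (2 * q + 1) * D + (2 * N) % (2 * q + 1) = 2 * N := Nat.div_add_mod _ _
  have hmod : (2 * N) % (2 * q + 1) < 2 * q + 1 := Nat.mod_lt _ (by omega)
  set r' := (2 * N) % (2 * q + 1) with hr'
  have hN0 : (0 : ℝ) < N := by linarith
  -- lower bound for D
  have hdivr : (2 * (q : ℝ) + 1) * D + r' = 2 * N := by exact_mod_cast hdiv
  have hmodr : (r' : ℝ) + 1 ≤ 2 * q + 1 := by exact_mod_cast hmod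
  have hDlow : 6 * P ≤ D + 1 := by
    -- (2q+1) (D+1) > 2N, (2q+1) * 3P ≤ N
    have h1 : 2 * (N : ℝ) ≤ (2 * q + 1) * (D + 1) := by nlinarith
    have h2 : (2 * (q : ℝ) + 1) * (3 * P) ≤ N := by nlinarith
    have h3 : (2 * (q : ℝ) + 1) * (6 * P) ≤ (2 * q + 1) * (D + 1) := by linarith
    exact le_of_mul_le_mul_left h3 (by positivity)
  have hDhigh : (D : ℝ) ≤ 16 * P := by
    have h1 : (2 * (q : ℝ) + 1) * D ≤ 2 * N := by
      have : (0 : ℝ) ≤ r' := by positivity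
      linarith
    -- (2q+1) * 16 P ≥ 2N
    have h2 : 2 * (N : ℝ) ≤ (2 * q + 1) * (16 * P) := by nlinarith
    exact le_of_mul_le_mul_left (h1.trans h2) (by positivity)
  have h2q : 2 * (q : ℝ) + 1 ≤ D := by
    -- 8 P q ≤ N ≤ n^2/2
    have h1 : (q : ℝ) * 8 * P ≤ n * n / 2 := by linarith
    have h2 : ((q : ℝ) * 8 * θ) * n ≤ (n / 2) * n := by
      rw [hP] at h1; nlinarith
    have h3 : (q : ℝ) * 8 * θ ≤ n / 2 := le_of_mul_le_mul_right h2 hnpos
    have h4 : (q : ℝ) * 8 * 48 ≤ n / 2 := by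
      have : (q : ℝ) * 8 * 48 ≤ q * 8 * θ := mul_le_mul_of_nonneg_left ht (by positivity)
      linarith
    linarith
  have h2q' : 2 * q + 1 ≤ D := by exact_mod_cast h2q
  have hNeq : 2 * N = 2 * (q * D) + (D + r') := by
    rw [← hdiv]; ring
  set s := N - q * D with hs
  have hs2 : 2 * s = D + r' := by omega
  have hNs : N = s + D * q := by
    rw [Nat.mul_comm D q]; omega
  have hsD : s < D := by omega
  have hD2 : 2 ≤ D := by
    have : (2 : ℝ) ≤ D := by linarith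
    exact_mod_cast this
  have hD1 : D - 1 + 1 = D := by omega
  have hDr : ((D - 1 : ℕ) : ℝ) = D - 1 := by
    rw [Nat.cast_sub (by omega), Nat.cast_one]
  refine ⟨D - 1, by omega, ?_, ?_⟩
  · apply avoider_long (θ := θ) (by omega) (by linarith) hθ
    · rw [hDr]
      have : 4 * (n : ℝ) * θ = 4 * P := by rw [hP]; ring
      rw [this]
      linarith
    · rw [hD1, ← hN]
      have h1 : N % D = s := by
        conv_lhs => rw [hNs]
        rw [Nat.add_mul_mod_self_left, Nat.mod_eq_of_lt hsD]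
      rw [h1]
      have h2 : 2 * (s : ℝ) = D + r' := by exact_mod_cast hs2
      have : (0 : ℝ) ≤ r' := by positivity
      linarith
  · rw [hDr]
    linarith

/-- Enforcer wins for all small biases. -/
theorem enforcer_all {k n : ℕ} {θ : ℝ} (hk : 2 ≤ k)
    (ht : 64 * ((k : ℝ) + 1) * (k + 1) ≤ θ) (hθ : θ ^ k = n) (b : ℕ) (hb : 1 ≤ b)
    (hb2 : (b : ℝ) * (64 * (k + 1) * (k + 1)) ≤ n * θ) : EnforcerWinsStar n k b := by
  have hkr : (2 : ℝ) ≤ k := by exact_mod_cast hk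
  have hkk : 9 ≤ ((k : ℝ) + 1) * (k + 1) := by nlinarith
  have hθ4 : 64 * 9 ≤ θ := by linarith
  have hn0 : θ * θ ≤ n := by
    rw [← hθ]
    calc θ * θ = θ ^ 2 := by ring
      _ ≤ θ ^ k := pow_le_pow_right₀ (by linarith) (by omega)
  have hnθ : θ ≤ n := by nlinarith
  have hnpos : (0 : ℝ) < n := by linarith
  have hn1 : 8 * ((k : ℝ) + 1) * (k + 1) ≤ n := by nlinarith
  refine enforcer_small (H := n / (4 * (k + 1))) (ρ := ⌊θ / 2⌋₊) hb ?_ ?_ ?_
  · apply rho_cond (by omega) (by linarith)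
    · exact_mod_cast hn1
    · push_cast
      have h1 : (n : ℝ) * (64 * (k + 1) * (k + 1)) ≤ n * θ :=
        mul_le_mul_of_nonneg_left ht hnpos.le
      nlinarith
  · exact half_pow hk (by linarith) hθ
  · have h1 := Nat.mul_div_le n (4 * (k + 1))
    rw [Nat.mul_assoc] at h1
    omega

/-- **Q2.** For every fixed `k ≥ 3` (even `k ≥ 2`), `f⁻_{n,k} = Θ(n^{(k+1)/k})` for all
sufficiently large `n`. -/
theorem result (k : ℕ) (hk : 3 ≤ k) : ∃ c C : ℝ, 0 < c ∧ 0 < C ∧ ∃ n₀ : ℕ, ∀ n : ℕ, n₀ ≤ n →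
    c * (n : ℝ) ^ (((k : ℝ) + 1) / (k : ℝ)) ≤ (fMinus n k : ℝ) ∧
    (fMinus n k : ℝ) ≤ C * (n : ℝ) ^ (((k : ℝ) + 1) / (k : ℝ)) := by
  have hkr : (3 : ℝ) ≤ k := by exact_mod_cast hk
  have hkk : 16 ≤ ((k : ℝ) + 1) * (k + 1) := by nlinarith
  obtain ⟨n₀, h0⟩ := theta_facts k (by omega) (64 * ((k : ℝ) + 1) * (k + 1)) (by linarith)
  refine ⟨1 / (128 * ((k : ℝ) + 1) * (k + 1)), 16, by positivity, by norm_num, n₀,
    fun n hn => ?_⟩
  obtain ⟨θ, h1, h2, h3⟩ := h0 n hn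
  rw [h3]
  have hθ4 : 64 * 16 ≤ θ := by linarith
  have hn1 : (1 : ℝ) ≤ n := by
    rw [← h2]
    exact one_le_pow₀ (by linarith)
  obtain ⟨b₀, hb1, hb2, hb3⟩ := avoider_exists (by omega : 2 ≤ k) (by linarith) h2
  have hub : ∀ m ∈ {m : ℕ | ∀ b, 1 ≤ b → b ≤ m → EnforcerWinsStar n k b}, m ≤ b₀ := by
    intro m hm
    by_contra hc
    push Not at hc
    exact (avoiderWinsStar_iff n k b₀).mp hb2 (hm b₀ hb1 hc.le)
  have hle : fMinus n k ≤ b₀ :=
    csSup_le ⟨0, fun b h1 h2 => absurd h1 (by omega)⟩ hub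
  constructor
  · set x : ℝ := n * θ / (64 * ((k : ℝ) + 1) * (k + 1)) with hx
    have hxn : (n : ℝ) ≤ x := by
      rw [hx, le_div_iff₀ (by positivity)]
      exact mul_le_mul_of_nonneg_left h1 (by linarith)
    have hmem : ⌊x⌋₊ ∈ {m : ℕ | ∀ b, 1 ≤ b → b ≤ m → EnforcerWinsStar n k b} := by
      intro b hb hbx
      apply enforcer_all (by omega : 2 ≤ k) h1 h2 b hb
      have h5 : (b : ℝ) ≤ ⌊x⌋₊ := by exact_mod_cast hbx
      have h6 : (⌊x⌋₊ : ℝ) ≤ x := Nat.floor_le (by linarith)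
      have h7 : (b : ℝ) ≤ x := h5.trans h6
      rw [hx, le_div_iff₀ (by positivity)] at h7
      exact h7
    have h5 : ⌊x⌋₊ ≤ fMinus n k := le_csSup ⟨b₀, hub⟩ hmem
    have h6 : (⌊x⌋₊ : ℝ) ≤ fMinus n k := by exact_mod_cast h5
    have h7 : x < ⌊x⌋₊ + 1 := Nat.lt_floor_add_one x
    have h8 : x / 2 ≤ (⌊x⌋₊ : ℝ) := by
      have h9 : (2 : ℝ) ≤ n := by
        have : θ ≤ n := by
          rw [← h2]
          calc θ = θ ^ 1 := by ring
            _ ≤ θ ^ k := pow_le_pow_right₀ (by linarith) (by omega)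
        linarith
      linarith
    have h10 : 1 / (128 * ((k : ℝ) + 1) * (k + 1)) * (n * θ) = x / 2 := by
      rw [hx]
      field_simp
      norm_num
    rw [h10]
    linarith
  · have h6 : (fMinus n k : ℝ) ≤ b₀ := by exact_mod_cast hle
    linarith

end Pool.Agent.Results.MP_64b4f3_co.LowerThreshold
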