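import Pool.Agent.StarGame.Params

namespace Pool.Agent.Results.MP_64b4f3_co.UpperThreshold

open Finset Pool.Agent.StarGame

theorem choose_facts {n : ℕ} (hn : 2 ≤ n) :
    ((n.choose 2 : ℕ) : ℝ) ≤ (n : ℝ) * n / 2 ∧ (n : ℝ) * n / 4 ≤ ((n.choose 2 : ℕ) : ℝ) := by
  have hn2 : (2 : ℝ) ≤ n := by exact_mod_cast hn
  rw [Nat.cast_choose_two]
  constructor <;> nlinarith

/-- Enforcer wins for some bias of order `n θ`, `θ = n ^ (1/(k-1))`. -/
theorem enforcer_exists {k n : ℕ} {θ : ℝ} (hk : 3 ≤ k)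
    (ht : 64 * (k : ℝ) * (32 * k * (k + 1)) ≤ θ) (hθ : θ ^ (k - 1) = n) :
    ∃ b : ℕ, EnforcerWinsStar n k b ∧ (n : ℝ) * θ ≤ 16 * (32 * k * (k + 1)) * b := by
  set M : ℝ := 32 * k * (k + 1) with hM
  have hkr : (3 : ℝ) ≤ k := by exact_mod_cast hk
  have hM1 : 384 ≤ M := by rw [hM]; nlinarith
  have hkM : 3 * M ≤ k * M := mul_le_mul_of_nonneg_right hkr (by linarith)
  have hθ0 : 64 * k * M ≤ θ := ht
  have hθ1 : 64 * 3 * M ≤ θ := by nlinarith
  have hθ2 : 64 * 3 * 384 ≤ θ := by linarith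
  have hn0 : θ * θ ≤ n := by
    rw [← hθ]
    calc θ * θ = θ ^ 2 := by ring
      _ ≤ θ ^ (k - 1) := pow_le_pow_right₀ (by linarith) (by omega)
  have hnθ : θ ≤ n := by nlinarith
  have hnr : 64 * 3 * 384 ≤ (n : ℝ) := hθ2.trans hnθ
  have hnpos : (0 : ℝ) < n := by linarith
  have hθpos : (0 : ℝ) < θ := by linarith
  have hn2 : 2 ≤ n := by
    have : (2 : ℝ) ≤ n := by linarith
    exact_mod_cast this
  obtain ⟨hN1, hN2⟩ := choose_facts hn2
  set N := n.choose 2 with hN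
  have hnM : 64 * k * M ≤ n := hθ0.trans hnθ
  -- q
  have hMn1 : 1 ≤ M * n / θ := by
    rw [le_div_iff₀ hθpos]
    nlinarith
  set q := ⌈M * n / θ⌉₊ with hq
  have hq1 : M * n / θ ≤ q := Nat.le_ceil _
  have hq2 : (q : ℝ) ≤ 2 * (M * n / θ) := by
    have := Nat.ceil_lt_add_one (a := M * n / θ) (by linarith)
    linarith
  have hqpos : 1 ≤ q := by
    have : (1 : ℝ) ≤ q := hMn1.trans hq1
    exact_mod_cast this
  have hNpos : 1 ≤ N := by
    have : (1 : ℝ) ≤ N := by nlinarith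
    exact_mod_cast this
  set D := (N - 1) / q with hD
  have hdiv : q * D + (N - 1) % q = N - 1 := Nat.div_add_mod (N - 1) q
  have hmod : (N - 1) % q < q := Nat.mod_lt _ hqpos
  set r' := (N - 1) % q with hr'
  have hNeq : N = (r' + 1) + D * q := by
    rw [Nat.mul_comm D q]; omega
  -- lower bound for D
  have hDlow : (n : ℝ) * θ ≤ 8 * M * (D + 1) := by
    have h1 : (N : ℝ) ≤ (D + 1) * q := by
      have : N ≤ (D + 1) * q := by
        rw [Nat.add_mul, Nat.one_mul, Nat.mul_comm D q]; omega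
      exact_mod_cast this
    have h2 : (n : ℝ) * n / 4 ≤ (D + 1) * (2 * (M * n / θ)) := by
      refine hN2.trans (h1.trans ?_)
      exact mul_le_mul_of_nonneg_left hq2 (by positivity)
    have h3 : ((D : ℝ) + 1) * (2 * (M * n / θ)) = (2 * M * (D + 1)) * n / θ := by
      field_simp
    rw [h3, div_le_div_iff₀ (by norm_num) hθpos] at h2
    have h4 : ((n : ℝ) * θ) * n ≤ (8 * M * (D + 1)) * n := by nlinarith
    exact le_of_mul_le_mul_right h4 hnpos
  have hDhigh : (D : ℝ) * M * 2 ≤ n * θ := by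
    have h1 : (D : ℝ) * q ≤ N := by
      have : D * q ≤ N := by omega
      exact_mod_cast this
    have h2 : (D : ℝ) * (M * n / θ) ≤ n * n / 2 :=
      (mul_le_mul_of_nonneg_left hq1 (by positivity)).trans (h1.trans hN1)
    have h3 : (D : ℝ) * (M * n / θ) = (D * M) * n / θ := by
      field_simp
    rw [h3, div_le_div_iff₀ hθpos (by norm_num)] at h2
    have h4 : ((D : ℝ) * M * 2) * n ≤ (n * θ) * n := by nlinarith
    exact le_of_mul_le_mul_right h4 hnpos
  have hnθM : 192 * M * n ≤ n * θ := by nlinarith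
  have hD2 : (2 : ℝ) ≤ D := by
    have : 192 * M * n ≤ 8 * M * (D + 1) := hnθM.trans hDlow
    have h5 : (192 * n) * M ≤ (8 * (D + 1)) * M := by nlinarith
    have h6 : 192 * (n : ℝ) ≤ 8 * (D + 1) := le_of_mul_le_mul_right h5 (by linarith)
    linarith
  have hD2' : 2 ≤ D := by exact_mod_cast hD2
  refine ⟨D - 1, ?_, ?_⟩
  · have hD1 : D - 1 + 1 = D := by omega
    have hDr : ((D - 1 : ℕ) : ℝ) = D - 1 := by
      rw [Nat.cast_sub (by omega), Nat.cast_one]
    refine enforcer_short (s := r' + 1) (H := n / (4 * k)) (ρ := ⌊θ / 2⌋₊) (by omega) (by omega)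
      (by omega) ?_ ?_ ?_ ?_ ?_
    · have h1 : r' + 1 ≤ q := hmod
      refine h1.trans ?_
      rw [Nat.le_div_iff_mul_le (by omega)]
      have h2 : (q : ℝ) * (4 * k) ≤ n := by
        have h3 : (q : ℝ) * (4 * k) ≤ 2 * (M * n / θ) * (4 * k) :=
          mul_le_mul_of_nonneg_right hq2 (by positivity)
        refine h3.trans ?_
        have h4 : 2 * (M * n / θ) * (4 * k) = (8 * k * M) * n / θ := by
          field_simp; ring
        rw [h4, div_le_iff₀ hθpos]
        have h5 : 8 * k * M ≤ θ := by nlinarith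
        nlinarith
      exact_mod_cast h2
    · rw [hD1, ← hN]
      conv_lhs => rw [hNeq]
      rw [Nat.add_mul_mod_self_left]
    · apply rho_cond (by omega) (by linarith)
      · have : 8 * (k : ℝ) * (k + 1) ≤ n := by
          have : 8 * (k : ℝ) * (k + 1) * 4 = M := by rw [hM]; ring
          nlinarith
        exact_mod_cast this
      · rw [hDr, ← hM]
        nlinarith
    · exact half_pow (by omega) hθpos.le hθ
    · have h1 := Nat.mul_div_le n (4 * k)
      rw [Nat.mul_assoc] at h1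
      omega
  · rw [Nat.cast_sub (by omega), Nat.cast_one]
    have h1 : 32 * M ≤ n * θ := by nlinarith
    nlinarith

/-- **Q1.** For every fixed `k ≥ 3`, `f⁺_{n,k} = Θ(n^{k/(k-1)})` for all sufficiently large `n`. -/
theorem result (k : ℕ) (hk : 3 ≤ k) : ∃ c C : ℝ, 0 < c ∧ 0 < C ∧ ∃ n₀ : ℕ, ∀ n : ℕ, n₀ ≤ n →
    c * (n : ℝ) ^ ((k : ℝ) / ((k : ℝ) - 1)) ≤ (fPlus n k : ℝ) ∧
    (fPlus n k : ℝ) ≤ C * (n : ℝ) ^ ((k : ℝ) / ((k : ℝ) - 1)) := by
  have hkr : (3 : ℝ) ≤ k := by exact_mod_cast hk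
  obtain ⟨n₀, h0⟩ := theta_facts (k - 1) (by omega) (64 * (k : ℝ) * (32 * k * (k + 1)))
    (by nlinarith [mul_pos (show (0:ℝ) < k by linarith) (show (0:ℝ) < k by linarith)])
  refine ⟨1 / (16 * (32 * k * (k + 1))), 5, by positivity, by norm_num, n₀, fun n hn => ?_⟩
  obtain ⟨θ, h1, h2, h3⟩ := h0 n hn
  have hex : (((k - 1 : ℕ) : ℝ) + 1) / ((k - 1 : ℕ) : ℝ) = (k : ℝ) / ((k : ℝ) - 1) := by
    rw [Nat.cast_sub (by omega), Nat.cast_one]
    ring
  rw [hex] at h3
  rw [h3]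
  have hθ4 : 4 ≤ θ := by
    refine le_trans ?_ h1
    nlinarith [mul_pos (show (0:ℝ) < k by linarith) (show (0:ℝ) < k by linarith)]
  have hn1 : (1 : ℝ) ≤ n := by
    rw [← h2]
    exact one_le_pow₀ (by linarith)
  have hmem : ⌈4 * n * θ⌉₊ ∈ {m : ℕ | ∀ b, m < b → AvoiderWinsStar n k b} := by
    intro b hb
    apply avoider_large (by omega) hθ4 h2
    have h5 : 4 * n * θ ≤ (⌈4 * n * θ⌉₊ : ℝ) := Nat.le_ceil _
    have h6 : (⌈4 * n * θ⌉₊ : ℝ) ≤ b := by exact_mod_cast hb.le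
    linarith
  constructor
  · obtain ⟨b, hb1, hb2⟩ := enforcer_exists hk h1 h2
    have h5 : b ≤ fPlus n k := by
      by_contra hc
      push Not at hc
      have h6 : fPlus n k ∈ {m : ℕ | ∀ b, m < b → AvoiderWinsStar n k b} :=
        Nat.sInf_mem ⟨_, hmem⟩
      exact (avoiderWinsStar_iff n k b).mp (h6 b hc) hb1
    have h6 : (b : ℝ) ≤ fPlus n k := by exact_mod_cast h5
    have h7 : 1 / (16 * (32 * (k : ℝ) * (k + 1))) * (n * θ) ≤ b := by
      rw [div_mul_eq_mul_div, one_mul, div_le_iff₀ (by positivity)]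
      linarith
    linarith
  · have h5 : fPlus n k ≤ ⌈4 * n * θ⌉₊ := Nat.sInf_le hmem
    have h6 : (fPlus n k : ℝ) ≤ (⌈4 * n * θ⌉₊ : ℝ) := by exact_mod_cast h5
    have h7 : (⌈4 * n * θ⌉₊ : ℝ) < 4 * n * θ + 1 := Nat.ceil_lt_add_one (by positivity)
    nlinarith

end Pool.Agent.Results.MP_64b4f3_co.UpperThreshold
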